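import Mathlib
import Pool.Agent.H204R3.GP.Defs
import Pool.Agent.H204R3.GP.MTDefs
import Pool.Agent.W516.MT.Defs
import Pool.Agent.W522.H.H5

/-!
# The Mumford-Tate conjecture for abelian varieties of every type with reflections

Let `A` be an abelian variety over a number field `L` embedded in the complex numbers, with any
endomorphisms: products and factors of every type (type IV included) are allowed. Let `ℓ` be a prime
number, `V = ℚ_ℓ ⊗ H_1(A, ℚ)` the rational Tate module with the action `ρ` of the Galois group `Γ`,
`χ` the cyclotomic character, `Ω` an algebraic closure of `ℚ_ℓ` and `X = Ω ⊗ V`.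

The *strongly irreducible* subspaces `U` of `X` (predicate `SI`) are the minimal nonzero subspaces
that are stable under a subgroup of finite index of `Γ`. Suppose that

* (elements) every strongly irreducible `U` of dimension at least THREE is stabilised by some
  element `γ` of `Γ` (a Frobenius element or an element of an inertia group, say) such that
  - (`HasReflection`) `γ` has a simple eigenvalue on `U` on which some homomorphism `f` from the
    multiplicative to the additive group of `Ω` has another value than on all other eigenvalues,
    where it is constant; or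
  - (`HasUnipotent`) the eigenvectors of `γ` in `U` span a hyperplane of `U`; or
  - (`HasSymplecticReflection`, `AltDu`) `U` is self-dual with an alternating pairing and `γ` has
    two simple eigenvalues on `U` where such an `f` has the values `c + δ` and `c - δ`, and the
    value `c` on the others;
* (`LinesNotSelfDual`) one-dimensional `U` are not self-dual (this holds for all abelian varieties in
  characteristic zero: a self-dual `U` of dimension one would have the Hodge-Tate weight 1/2);
* (`TwistFree2`) if `U` has dimension at least two and is not self-dual, then every twist of `U` by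
  a character that occurs in `X` is potentially isomorphic to `U`, or (in dimension two) dual to it.

There is no condition on determinants: the Tate classes of Weil type (and all other classes that
come from relations between the determinants of the `U`) may occur, so that the Tate ring of the
powers of `A` need not be generated in degree two. There is no condition on the elements for the `U`
of dimension one and two: the theorem covers all products of abelian varieties with real, quaternion
and complex multiplication whose pieces have dimension at most two, if they are not twists.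

Then all Tate classes in all the spaces `(H^1)^{⊗ 2 m}(m)`, and so in the cohomology of all powers
`A ^ n`, are linear combinations of Hodge classes. Together with the theorem of Deligne (Hodge
classes are Tate classes) this is the equality of the Mumford-Tate group over `ℚ_ℓ` and of the
connected component of the `ℓ`-adic monodromy group: both are reductive (Faltings), so that they are
determined by these classes.

Idea of the proof: the Lie algebra of the endomorphisms of `X`
that kill all Tate classes contains, for every `U`, all endomorphisms of trace zero of `U` (or, if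
`U` is self-dual, the symplectic Lie algebra), placed in the isotypic components of `U` and of its
dual. So an infinitesimal isometry of `V` that commutes with `End(A)` is the sum of an element of
this Lie algebra and of a central element of `End(A) ⊗ ℚ_ℓ`; the centre is treated by the theorem on
centres, as in `MP_6c781a_ag/FourTermAllTypes`, whose definitions for the Hodge side are used.

In the statement `W` is `H_1(A, ℚ)`, `T` the tangent space at the origin and `per : W → T` the
inclusion, `ω₀` is the form given by a polarization, `ω` the Weil pairing. The hypotheses `hss`, `hF`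
are the theorems of Faltings, `hD` is the theorem of Deligne and `hC` the theorem on centres (the
Mumford-Tate conjecture is true for the centres; Vasiu, Ullmo-Yafaev).
-/

namespace Pool.Agent.Results.MP_c1bb77_ag.ReflectionsAllTypes

open Module TensorProduct Pool.Agent.H204R3.GP Pool.Agent.W516.MTD Pool.Agent.W522.U
  Pool.Agent.W522.T
open Pool.Agent.W522.S (HasUnipotent)

/-- The Mumford-Tate conjecture for an abelian variety of any type whose strongly irreducible pieces
of dimension at least three have a reflection, a unipotent element or a symplectic reflection. -/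
theorem result (ℓ : ℕ) [Fact ℓ.Prime]
    -- the complex torus `A(ℂ)` with a polarization
    {W T : Type} [AddCommGroup W] [Module ℚ W] [FiniteDimensional ℚ W] [AddCommGroup T]
    [Module ℂ T] (per : W →+ T) (hper : IsRationalStructure per)
    (ω₀ : W →ₗ[ℚ] W →ₗ[ℚ] ℚ) (hω₀ : IsHodgeBilinear per ω₀)
    -- the Galois group, its action on the Tate module and the Weil pairing
    {Γ : Type} [Group Γ] (ρ : Representation ℚ_[ℓ] Γ (ℚ_[ℓ] ⊗[ℚ] W)) (χ : Γ →* ℚ_[ℓ])
    (ω : ℚ_[ℓ] ⊗[ℚ] W →ₗ[ℚ_[ℓ]] ℚ_[ℓ] ⊗[ℚ] W →ₗ[ℚ_[ℓ]] ℚ_[ℓ])
    (hωω : ∀ u v : W, ω ((1 : ℚ_[ℓ]) ⊗ₜ[ℚ] u) ((1 : ℚ_[ℓ]) ⊗ₜ[ℚ] v) = ((ω₀ u v : ℚ) : ℚ_[ℓ]))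
    (halt : ∀ v, ω v v = 0) (hnd : ∀ u, (∀ v, ω u v = 0) → u = 0)
    (hωρ : ∀ s u v, ω (ρ s u) (ρ s v) = χ s * ω u v)
    -- the theorems of Faltings and Deligne and the theorem on centres
    (hss : FiniteIndexSemisimple ρ) (hF : Faltings per ρ) (hD : Deligne per ρ χ)
    (hC : Centres per ρ χ)
    -- the extension of the representation to an algebraic closure
    (Ω : Type) [Field Ω] [Algebra ℚ_[ℓ] Ω] [IsAlgClosure ℚ_[ℓ] Ω]
    (R : Representation Ω Γ (Ω ⊗[ℚ_[ℓ]] (ℚ_[ℓ] ⊗[ℚ] W))) (hR : ∀ s, R s = (ρ s).baseChange Ω)
    (χ' : Γ →* Ω) (hχ' : ∀ s, χ' s = algebraMap ℚ_[ℓ] Ω (χ s))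
    (hE : ∀ U, SI R U → 3 ≤ finrank Ω U →
      HasReflection R U ∨ HasUnipotent R U ∨ (HasSymplecticReflection R U ∧ AltDu R χ' U))
    (hone : LinesNotSelfDual R χ') (htwist : TwistFree2 R χ')
    (m : ℕ) (φ : MultilinearMap ℚ_[ℓ] (fun _ : Fin m × Fin 2 => ℚ_[ℓ] ⊗[ℚ] W) ℚ_[ℓ])
    (hφ : IsTateTensor ρ χ m φ) : IsHodgeCombination per φ := by
  have _ : IsAlgClosed Ω := IsAlgClosure.isAlgClosed ℚ_[ℓ]
  have _ : Algebra.IsAlgebraic ℚ_[ℓ] Ω := IsAlgClosure.isAlgebraic
  have _ : CharZero Ω := charZero_of_injective_algebraMap (algebraMap ℚ_[ℓ] Ω).injective
  have hR' : R = Pool.Agent.H204R3.SP.bcr ρ Ω := by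
    ext1 s
    exact hR s
  have hχ'' : χ' = Pool.Agent.H204R3.SP.bcc χ Ω := by
    ext1 s
    exact hχ' s
  subst hR' hχ''
  have hE' : Pool.Agent.W522.H.Elems (Pool.Agent.H204R3.SP.bcr ρ Ω)
      (Pool.Agent.H204R3.SP.bcc χ Ω) := by
    intro U hU h2
    rcases Nat.lt_or_ge 2 (finrank Ω U) with h3 | h3
    · exact hE U hU h3
    · exact Or.inl (Pool.Agent.W522.S.refl_of_two ℓ ρ hU (le_antisymm h3 h2))
  exact Pool.Agent.W522.H.mt_of_refl per ρ χ ω₀ ω hω₀ (fun u v => by rw [hωω, eq_ratCast]) hωρ hD
    hper halt hnd hss hF hC Ω hE' hone htwist m φ hφ

end Pool.Agent.Results.MP_c1bb77_ag.ReflectionsAllTypes
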